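import Pool.Agent.H59.SqJ.Encode

/-! The number of solutions is at most the number of codes. -/

set_option autoImplicit false

namespace Pool.Agent.H59.SqJ

open Finset

theorem card_le_mul_real {α β : Type*} [DecidableEq β] (s : Finset α) (f : α → β) (A B : ℝ)
    (hB0 : 0 ≤ B) (hA : ((s.image f).card : ℝ) ≤ A)
    (hB : ∀ d, ((s.filter (fun x => f x = d)).card : ℝ) ≤ B) : (s.card : ℝ) ≤ A * B := by
  have h1 : (s.card : ℝ) = ∑ d ∈ s.image f, ((s.filter (fun x => f x = d)).card : ℝ) := by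
    exact_mod_cast Finset.card_eq_sum_card_image f s
  rw [h1]
  calc ∑ d ∈ s.image f, ((s.filter (fun x => f x = d)).card : ℝ)
      ≤ ∑ _d ∈ s.image f, B := Finset.sum_le_sum (fun d _ => hB d)
    _ = (s.image f).card * B := by rw [Finset.sum_const, nsmul_eq_mul]
    _ ≤ A * B := mul_le_mul_of_nonneg_right hA hB0

theorem card_fun_le' {V W : Type*} [Fintype V] [DecidableEq V] [DecidableEq W] (w : V → Finset W)
    (k : ℕ) (y D : ℝ) (hy : 1 ≤ y) (F : Finset (V → Finset W))
    (hF : ∀ f ∈ F, (∀ v, f v ⊆ w v) ∧ ∑ v, (f v).card ≤ k)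
    (hw : ((∑ v, (w v).card : ℕ) : ℝ) ≤ y * D) :
    (F.card : ℝ) ≤ y ^ k * Real.exp D := by
  have hy0 : (0 : ℝ) < y := by linarith
  have h1 := card_fun_le w k (1 / y) (by positivity) (by rw [div_le_one hy0]; exact hy) F hF
  have h2 : 1 / y * ∑ v, ((w v).card : ℝ) ≤ D := by
    rw [one_div, inv_mul_le_iff₀ hy0]
    push_cast at hw
    exact hw
  have h3 : (F.card : ℝ) * (1 / y) ^ k ≤ Real.exp D := h1.trans (Real.exp_le_exp.2 h2)
  rw [one_div, inv_pow, ← div_eq_mul_inv, div_le_iff₀ (by positivity)] at h3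
  linarith

section
variable {V : Type} [Fintype V] [DecidableEq V]

theorem card_SF_le (hn : 0 < Fintype.card V) (k : ℕ) (F : Finset (V → Finset V))
    (hF : ∀ f ∈ F, ∑ v, (f v).card ≤ k) :
    (F.card : ℝ) ≤ ((Fintype.card V : ℝ) ^ 2) ^ k * Real.exp 1 := by
  have hn1 : (1 : ℝ) ≤ Fintype.card V := by exact_mod_cast hn
  refine card_fun_le' (fun _ => (univ : Finset V)) k ((Fintype.card V : ℝ) ^ 2) 1
    (one_le_pow₀ hn1) F (fun f hf => ⟨fun v => Finset.subset_univ _, hF f hf⟩) ?_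
  simp only [Finset.sum_const, Finset.card_univ, smul_eq_mul]
  push_cast
  exact le_of_eq (by ring)

theorem card_S_le (hn : 0 < Fintype.card V) (k : ℕ) (F : Finset (Finset V))
    (hF : ∀ Z ∈ F, Z.card ≤ k) :
    (F.card : ℝ) ≤ (Fintype.card V : ℝ) ^ k * Real.exp 1 := by
  have hn0 : (0 : ℝ) < Fintype.card V := by exact_mod_cast hn
  have hn1 : (1 : ℝ) ≤ Fintype.card V := by exact_mod_cast hn
  have h1 := card_set_le (V := V) k (1 / Fintype.card V) (by positivity)
    (by rw [div_le_one hn0]; exact hn1) F hF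
  rw [one_div, inv_pow, inv_mul_cancel₀ hn0.ne', ← div_eq_mul_inv,
    div_le_iff₀ (by positivity)] at h1
  linarith

theorem sum_rowsOf (c : ℕ) (o : V → Finset V) (ho : ∀ x, (o x).card = c) (T : Finset V) :
    ∑ v, (rowsOf o T v).card = T.card * c := by
  rw [← smul_eq_mul, ← Finset.sum_const, ← Finset.sum_subset (Finset.subset_univ T)]
  · refine Finset.sum_congr rfl (fun v hv => ?_)
    rw [rowsOf, if_pos hv, ho]
  · intro v _ hv
    rw [rowsOf, if_neg hv, Finset.card_empty]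

theorem sum_colsOf (c : ℕ) (o : V → Finset V)
    (ho : ∀ y, (univ.filter (fun x => y ∈ o x)).card = c) (T : Finset V) :
    ∑ v, (colsOf o T v).card = T.card * c := by
  rw [← smul_eq_mul, ← Finset.sum_const, ← Finset.sum_subset (Finset.subset_univ T)]
  · refine Finset.sum_congr rfl (fun v hv => ?_)
    rw [colsOf, if_pos hv, ho]
  · intro v _ hv
    rw [colsOf, if_neg hv, Finset.card_empty]

theorem card_sol_le (c a b m k h q t : ℕ) (hVc : Fintype.card V = c ^ 2) (hc : 0 < c)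
    (ha : 1 ≤ a) (ham : c ≤ a * m) (hb0 : 0 < b) (hh : 0 < h) (hb : b * (k * a + h) ≤ c)
    (ht : 2 * Real.exp 1 * ((c ^ 2 : ℕ) : ℝ) ^ (m + k + 1) <
      Real.exp (t * (h / ((c ^ 2 : ℕ) : ℝ))))
    (hq : ((c ^ 2 : ℕ) : ℝ) < Real.exp (q * (k / c)))
    (Ω : Finset (V → Finset V)) (hΩ : ∀ o ∈ Ω, IsSol c o) :
    (Ω.card : ℝ) ≤
      ((((c ^ 2 : ℕ) : ℝ) ^ t * Real.exp 1) *
        (((((c ^ 2 : ℕ) : ℝ) ^ 2) ^ (t * c) * Real.exp 1) *
        (((((c ^ 2 : ℕ) : ℝ) ^ 2) ^ (t * c) * Real.exp 1) *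
        (((((c ^ 2 : ℕ) : ℝ) ^ 2) ^ (c ^ 2 * m) * Real.exp 1) *
        ((((c ^ 2 : ℕ) : ℝ) ^ 2) ^ (c ^ 2 * q) * Real.exp 1))))) *
      (((m + 1 : ℝ) ^ (c ^ 3) * Real.exp ((c : ℝ) ^ 3)) *
      (((h : ℝ) ^ (c ^ 3) * Real.exp ((c : ℝ) ^ 3)) *
      (((c : ℝ) ^ ((b + 3) * c ^ 3 / (3 * b)) * Real.exp ((c : ℝ) ^ 3)) * 1))) := by
  classical
  have hV : 0 < Fintype.card V := by rw [hVc]; positivity
  have hcR : (0 : ℝ) < c := by exact_mod_cast hc
  have hhR : (1 : ℝ) ≤ h := by exact_mod_cast hh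
  have hc1 : (1 : ℝ) ≤ c := by exact_mod_cast hc
  have hgood : ∀ o : V → Finset V, ∃ (T : Finset V) (Z Q : V → Finset V),
      IsSol c o → Good c b m h q t o T Z Q := by
    intro o
    by_cases ho : IsSol c o
    · obtain ⟨T, Z, Q, hg⟩ := exists_good c a b m k h q t o ho hc hV ha ham hb
        (by rw [hVc]; exact ht) (by rw [hVc]; exact hq)
      exact ⟨T, Z, Q, fun _ => hg⟩
    · exact ⟨∅, fun _ => ∅, fun _ => ∅, fun h => absurd h ho⟩
  choose T Z Q hG using hgood
  have hG' : ∀ o ∈ Ω, Good c b m h q t o (T o) (Z o) (Q o) := fun o ho => hG o (hΩ o ho)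
  set code1 : (V → Finset V) →
      Finset V × (V → Finset V) × (V → Finset V) × (V → Finset V) × (V → Finset V) :=
    fun o => (T o, rowsOf o (T o), colsOf o (T o), Z o, Q o) with hcode1
  set code2 : (V → Finset V) → (V → Finset V) := fun o => Pop o (Z o) with hcode2
  set LL : (V → Finset V) → (V → Finset V) := fun o x =>
    (o x \ (Pop o (Z o) x ∪ Q o x)).filter (fun y => c ≤ b * (UU o (Z o) y).card) with hLL
  set HH : (V → Finset V) → (V → Finset V) := fun o x =>
    (o x \ (Pop o (Z o) x ∪ Q o x)).filter (fun y => ¬ c ≤ b * (UU o (Z o) y).card) with hHH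
  have hsumle : ∀ (o : V → Finset V), o ∈ Ω → ∀ g : V → Finset V, (∀ v, g v ⊆ o v) →
      ∑ v, (g v).card ≤ c ^ 3 := by
    intro o ho g hg
    calc ∑ v, (g v).card ≤ ∑ _v : V, c := Finset.sum_le_sum (fun v _ => by
          rw [← (hΩ o ho).out v]; exact Finset.card_le_card (hg v))
      _ = c ^ 3 := by
          rw [Finset.sum_const, Finset.card_univ, hVc, smul_eq_mul]; ring
  refine card_le_mul_real Ω code1 _ _ (by positivity) ?_ (fun d1 => card_le_mul_real _ code2 _ _
    (by positivity) ?_ (fun d2 => card_le_mul_real _ LL _ _ (by positivity) ?_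
    (fun d3 => card_le_mul_real _ HH _ _ (by positivity) ?_ (fun d4 => ?_))))
  · -- the first part of the code
    have hsub : Ω.image code1 ⊆ (Ω.image T) ×ˢ ((Ω.image (fun o => rowsOf o (T o))) ×ˢ
        ((Ω.image (fun o => colsOf o (T o))) ×ˢ ((Ω.image Z) ×ˢ (Ω.image Q)))) := by
      intro p hp
      obtain ⟨o, ho, rfl⟩ := Finset.mem_image.1 hp
      simp only [hcode1, Finset.mem_product]
      exact ⟨Finset.mem_image_of_mem _ ho, Finset.mem_image_of_mem _ ho,
        Finset.mem_image_of_mem _ ho, Finset.mem_image_of_mem _ ho, Finset.mem_image_of_mem _ ho⟩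
    have hcard := Finset.card_le_card hsub
    simp only [Finset.card_product] at hcard
    have hcardR : ((Ω.image code1).card : ℝ) ≤ ((Ω.image T).card : ℝ) *
        (((Ω.image (fun o => rowsOf o (T o))).card : ℝ) *
        (((Ω.image (fun o => colsOf o (T o))).card : ℝ) *
        (((Ω.image Z).card : ℝ) * ((Ω.image Q).card : ℝ)))) := by exact_mod_cast hcard
    refine hcardR.trans ?_
    have e1 : ((Ω.image T).card : ℝ) ≤ ((c ^ 2 : ℕ) : ℝ) ^ t * Real.exp 1 := by
      rw [← hVc]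
      refine card_S_le hV t _ (fun S hS => ?_)
      obtain ⟨o, ho, rfl⟩ := Finset.mem_image.1 hS
      exact (hG' o ho).T_card
    have e2 : ((Ω.image (fun o => rowsOf o (T o))).card : ℝ) ≤
        (((c ^ 2 : ℕ) : ℝ) ^ 2) ^ (t * c) * Real.exp 1 := by
      rw [← hVc]
      refine card_SF_le hV (t * c) _ (fun S hS => ?_)
      obtain ⟨o, ho, rfl⟩ := Finset.mem_image.1 hS
      rw [sum_rowsOf c o (hΩ o ho).out]
      exact Nat.mul_le_mul_right _ (hG' o ho).T_card
    have e3 : ((Ω.image (fun o => colsOf o (T o))).card : ℝ) ≤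
        (((c ^ 2 : ℕ) : ℝ) ^ 2) ^ (t * c) * Real.exp 1 := by
      rw [← hVc]
      refine card_SF_le hV (t * c) _ (fun S hS => ?_)
      obtain ⟨o, ho, rfl⟩ := Finset.mem_image.1 hS
      rw [sum_colsOf c o (hΩ o ho).inn]
      exact Nat.mul_le_mul_right _ (hG' o ho).T_card
    have e4 : ((Ω.image Z).card : ℝ) ≤ (((c ^ 2 : ℕ) : ℝ) ^ 2) ^ (c ^ 2 * m) * Real.exp 1 := by
      rw [← hVc]
      refine card_SF_le hV _ _ (fun S hS => ?_)
      obtain ⟨o, ho, rfl⟩ := Finset.mem_image.1 hS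
      calc ∑ v, (Z o v).card ≤ ∑ _v : V, m := Finset.sum_le_sum (fun v _ => (hG' o ho).Z_card v)
        _ = Fintype.card V * m := by rw [Finset.sum_const, Finset.card_univ, smul_eq_mul]
    have e5 : ((Ω.image Q).card : ℝ) ≤ (((c ^ 2 : ℕ) : ℝ) ^ 2) ^ (c ^ 2 * q) * Real.exp 1 := by
      rw [← hVc]
      refine card_SF_le hV _ _ (fun S hS => ?_)
      obtain ⟨o, ho, rfl⟩ := Finset.mem_image.1 hS
      calc ∑ v, (Q o v).card ≤ ∑ _v : V, q := Finset.sum_le_sum (fun v _ => (hG' o ho).Q_card v)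
        _ = Fintype.card V * q := by rw [Finset.sum_const, Finset.card_univ, smul_eq_mul]
    gcongr
  · -- the popular parts
    set s := Ω.filter (fun o => code1 o = d1) with hs
    rcases s.eq_empty_or_nonempty with hse | ⟨o0, ho0⟩
    · rw [hse, Finset.image_empty, Finset.card_empty, Nat.cast_zero]
      positivity
    have hsame : ∀ o ∈ s, Z o = Z o0 ∧ rowsOf o (T o) = rowsOf o0 (T o0) := by
      intro o ho
      have h1 := (Finset.mem_filter.1 ho).2
      have h2 := (Finset.mem_filter.1 ho0).2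
      have h3 : code1 o = code1 o0 := h1.trans h2.symm
      simp only [hcode1, Prod.mk.injEq] at h3
      exact ⟨h3.2.2.2.1, h3.2.1⟩
    have hΩ0 : o0 ∈ Ω := (Finset.mem_filter.1 ho0).1
    refine card_fun_le' (fun y => (Z o0 y).biUnion o0) (c ^ 3) (m + 1) ((c : ℝ) ^ 3)
      (by linarith [(Nat.cast_nonneg m : (0 : ℝ) ≤ m)]) _ (fun f hf => ?_) ?_
    · obtain ⟨o, ho, rfl⟩ := Finset.mem_image.1 hf
      have hoΩ : o ∈ Ω := (Finset.mem_filter.1 ho).1
      refine ⟨fun v => ?_, hsumle o hoΩ _ (fun v => Finset.inter_subset_left)⟩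
      have h1 : (Z o v).biUnion o = (Z o0 v).biUnion o0 := by
        rw [← biUnion_rowsOf o ((hG' o hoΩ).Z_sub v), ← biUnion_rowsOf o0 ((hG' o0 hΩ0).Z_sub v),
          (hsame o ho).1, (hsame o ho).2]
      simp only [hcode2, Pop]
      rw [h1]
      exact Finset.inter_subset_right
    · have h1 : ∑ v, ((Z o0 v).biUnion o0).card ≤ ∑ _v : V, m * c := by
        refine Finset.sum_le_sum (fun v _ => ?_)
        refine (Finset.card_biUnion_le_card_mul _ _ c
          (fun z _ => le_of_eq ((hΩ o0 hΩ0).out z))).trans ?_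
        exact Nat.mul_le_mul_right _ ((hG' o0 hΩ0).Z_card v)
      have h2 : ∑ _v : V, m * c ≤ (m + 1) * c ^ 3 := by
        rw [Finset.sum_const, Finset.card_univ, hVc, smul_eq_mul]
        nlinarith [Nat.zero_le (c ^ 3)]
      have h3 := h1.trans h2
      exact_mod_cast h3
  · -- the cheap parts
    set s := (Ω.filter (fun o => code1 o = d1)).filter (fun o => code2 o = d2) with hs
    rcases s.eq_empty_or_nonempty with hse | ⟨o0, ho0⟩
    · rw [hse, Finset.image_empty, Finset.card_empty, Nat.cast_zero]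
      positivity
    have hsΩ : ∀ o ∈ s, o ∈ Ω := fun o ho => (Finset.mem_filter.1 (Finset.mem_filter.1 ho).1).1
    have hBsame : ∀ o ∈ s, ∀ x, BB c b o (T o) (Z o) (Q o) x = BB c b o0 (T o0) (Z o0) (Q o0) x := by
      intro o ho x
      have h1 := (Finset.mem_filter.1 (Finset.mem_filter.1 ho).1).2
      have h2 := (Finset.mem_filter.1 (Finset.mem_filter.1 ho0).1).2
      have h3 : code1 o = code1 o0 := h1.trans h2.symm
      have h4 : code2 o = code2 o0 := (Finset.mem_filter.1 ho).2.trans (Finset.mem_filter.1 ho0).2.symm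
      simp only [hcode1, Prod.mk.injEq] at h3
      simp only [hcode2] at h4
      obtain ⟨g1, g2, g3, g4, g5⟩ := h3
      rw [BB_eq c b o (hΩ o (hsΩ o ho)).out _ _ _ (hG' o (hsΩ o ho)).Z_sub,
        BB_eq c b o0 (hΩ o0 (hsΩ o0 ho0)).out _ _ _ (hG' o0 (hsΩ o0 ho0)).Z_sub, g2, g3, h4, g1, g4, g5]
    refine card_fun_le' (fun x => BB c b o0 (T o0) (Z o0) (Q o0) x) (c ^ 3) h ((c : ℝ) ^ 3)
      hhR _ (fun f hf => ?_) ?_
    · obtain ⟨o, ho, rfl⟩ := Finset.mem_image.1 hf
      refine ⟨fun x => ?_, hsumle o (hsΩ o ho) _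
        (fun v => (Finset.filter_subset _ _).trans Finset.sdiff_subset)⟩
      rw [← hBsame o ho x]
      intro y hy
      simp only [hLL, Finset.mem_filter, Finset.mem_sdiff, Finset.mem_union, not_or] at hy
      obtain ⟨⟨hyo, hyP, hyQ⟩, hyl⟩ := hy
      rw [BB, Finset.mem_filter]
      refine ⟨Finset.mem_univ _, hyl, fun z hz => ?_⟩
      have hzo : z ∈ o x := (hG' o (hsΩ o ho)).Q_sub x hz
      have hne : z ≠ y := by
        rintro rfl
        exact hyQ hz
      have hd := (hΩ o (hsΩ o ho)).disj hzo hyo hne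
      exact hd.mono_right (Finset.inter_subset_left.trans Finset.sdiff_subset)
    · have h1 := (hG' o0 (hsΩ o0 ho0)).B_sum
      rw [hVc] at h1
      have h2 : c ^ 2 * h * c = h * c ^ 3 := by ring
      rw [h2] at h1
      exact_mod_cast h1
  · -- the expensive parts
    set s := ((Ω.filter (fun o => code1 o = d1)).filter (fun o => code2 o = d2)).filter
      (fun o => LL o = d3) with hs
    have hsΩ : ∀ o ∈ s, o ∈ Ω := fun o ho =>
      (Finset.mem_filter.1 (Finset.mem_filter.1 (Finset.mem_filter.1 ho).1).1).1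
    refine card_fun_le' (fun _ => (univ : Finset V)) ((b + 3) * c ^ 3 / (3 * b)) c ((c : ℝ) ^ 3)
      hc1 _ (fun f hf => ?_) ?_
    · obtain ⟨o, ho, rfl⟩ := Finset.mem_image.1 hf
      refine ⟨fun x => Finset.subset_univ _, ?_⟩
      rw [Nat.le_div_iff_mul_le (by positivity), mul_comm]
      refine (hΩ o (hsΩ o ho)).expensive hVc b (UU o (Z o)) (HH o) (fun y => Finset.sdiff_subset)
        (fun x y hy => ?_) (fun x y hy => ?_)
      · simp only [hHH, Finset.mem_filter, Finset.mem_sdiff, Finset.mem_union, not_or, Pop,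
          Finset.mem_inter, not_and] at hy
        rw [UU, Finset.mem_sdiff]
        exact ⟨hy.1.1, hy.1.2.1 hy.1.1⟩
      · simp only [hHH, Finset.mem_filter] at hy
        omega
    · simp only [Finset.sum_const, Finset.card_univ, hVc, smul_eq_mul]
      push_cast
      exact le_of_eq (by ring)
  · -- the code determines the solution
    have hone : (((((Ω.filter (fun o => code1 o = d1)).filter (fun o => code2 o = d2)).filter
      (fun o => LL o = d3)).filter (fun o => HH o = d4)).card) ≤ 1 := by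
      rw [Finset.card_le_one]
      intro o ho o' ho'
      simp only [Finset.mem_filter] at ho ho'
      obtain ⟨⟨⟨⟨hoΩ, h1⟩, h2⟩, h3⟩, h4⟩ := ho
      obtain ⟨⟨⟨⟨hoΩ', h1'⟩, h2'⟩, h3'⟩, h4'⟩ := ho'
      have hrec : ∀ o ∈ Ω, ∀ x, o x = code2 o x ∪ Q o x ∪ LL o x ∪ HH o x := by
        intro o ho x
        ext y
        have hQ := (hG' o ho).Q_sub x
        simp only [hcode2, hLL, hHH, Finset.mem_union, Finset.mem_filter, Finset.mem_sdiff, Pop,
          Finset.mem_inter]
        have hQy : y ∈ Q o x → y ∈ o x := fun h => hQ h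
        tauto
      have hQ : Q o = Q o' := by
        have h5 : code1 o = code1 o' := h1.trans h1'.symm
        simp only [hcode1, Prod.mk.injEq] at h5
        exact h5.2.2.2.2
      funext x
      rw [hrec o hoΩ x, hrec o' hoΩ' x, h2, h2', h3, h3', h4, h4', hQ]
    exact_mod_cast hone

end

end Pool.Agent.H59.SqJ
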