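import Mathlib

/-! Counting lemmas: families of functions with small total size, and hitting sets. -/

set_option autoImplicit false

namespace Pool.Agent.H59.SqJ

open Finset

theorem sum_powerset_pow {W : Type*} (s : Finset W) (x : ℝ) :
    ∑ P ∈ s.powerset, x ^ P.card = (1 + x) ^ s.card := by
  have h := Finset.sum_pow_mul_eq_add_pow x (1 : ℝ) s
  simp only [one_pow, mul_one] at h
  rw [h, add_comm]

theorem one_add_pow_le_exp (x : ℝ) (hx : 0 ≤ x) (k : ℕ) : (1 + x) ^ k ≤ Real.exp (x * k) := by
  have h : 1 + x ≤ Real.exp x := by linarith [Real.add_one_le_exp x]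
  calc (1 + x) ^ k ≤ (Real.exp x) ^ k := pow_le_pow_left₀ (by linarith) h k
    _ = Real.exp (x * k) := by rw [← Real.exp_nat_mul, mul_comm]

/-- Functions into subsets of given sets, of total size at most `k`. -/
theorem card_fun_le {V W : Type*} [Fintype V] [DecidableEq V] [DecidableEq W] (w : V → Finset W)
    (k : ℕ) (x : ℝ) (hx0 : 0 < x) (hx1 : x ≤ 1) (F : Finset (V → Finset W))
    (hF : ∀ f ∈ F, (∀ v, f v ⊆ w v) ∧ ∑ v, (f v).card ≤ k) :
    (F.card : ℝ) * x ^ k ≤ Real.exp (x * ∑ v, ((w v).card : ℝ)) := by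
  have h1 : (F.card : ℝ) * x ^ k ≤ ∑ f ∈ F, ∏ v, x ^ (f v).card := by
    rw [← nsmul_eq_mul]
    refine Finset.card_nsmul_le_sum F _ _ (fun f hf => ?_)
    rw [Finset.prod_pow_eq_pow_sum]
    exact pow_le_pow_of_le_one hx0.le hx1 (hF f hf).2
  have h2 : ∑ f ∈ F, ∏ v, x ^ (f v).card ≤
      ∑ f ∈ Fintype.piFinset (fun v => (w v).powerset), ∏ v, x ^ (f v).card := by
    refine Finset.sum_le_sum_of_subset_of_nonneg (fun f hf => ?_) (fun f _ _ => ?_)
    · rw [Fintype.mem_piFinset]
      intro v
      rw [Finset.mem_powerset]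
      exact (hF f hf).1 v
    · exact Finset.prod_nonneg (fun v _ => pow_nonneg hx0.le _)
  have h3 : ∑ f ∈ Fintype.piFinset (fun v => (w v).powerset), ∏ v, x ^ (f v).card =
      ∏ v, ∑ P ∈ (w v).powerset, x ^ P.card :=
    (Finset.prod_univ_sum (fun v => (w v).powerset) (fun _ P => x ^ P.card)).symm
  have h4 : ∏ v, ∑ P ∈ (w v).powerset, x ^ P.card ≤ ∏ v, Real.exp (x * (w v).card) := by
    refine Finset.prod_le_prod (fun v _ => ?_) (fun v _ => ?_)
    · exact Finset.sum_nonneg (fun P _ => pow_nonneg hx0.le _)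
    · rw [sum_powerset_pow]
      exact one_add_pow_le_exp x hx0.le _
  calc (F.card : ℝ) * x ^ k ≤ _ := h1
    _ ≤ _ := h2
    _ = _ := h3
    _ ≤ _ := h4
    _ = Real.exp (x * ∑ v, ((w v).card : ℝ)) := by
        rw [← Real.exp_sum, Finset.mul_sum]

/-- Sets of size at most `k`. -/
theorem card_set_le {V : Type*} [Fintype V] [DecidableEq V] (k : ℕ) (x : ℝ) (hx0 : 0 < x)
    (hx1 : x ≤ 1) (F : Finset (Finset V)) (hF : ∀ Z ∈ F, Z.card ≤ k) :
    (F.card : ℝ) * x ^ k ≤ Real.exp (x * Fintype.card V) := by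
  have h1 : (F.card : ℝ) * x ^ k ≤ ∑ Z ∈ F, x ^ Z.card := by
    rw [← nsmul_eq_mul]
    exact Finset.card_nsmul_le_sum F _ _
      (fun Z hZ => pow_le_pow_of_le_one hx0.le hx1 (hF Z hZ))
  have h2 : ∑ Z ∈ F, x ^ Z.card ≤ ∑ Z ∈ (univ : Finset V).powerset, x ^ Z.card :=
    Finset.sum_le_sum_of_subset_of_nonneg (fun Z _ => by simp) (fun Z _ _ => pow_nonneg hx0.le _)
  rw [sum_powerset_pow] at h2
  exact h1.trans (h2.trans (one_add_pow_le_exp x hx0.le _))

/-- A small set that meets all the large members of a family. -/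
theorem exists_hitting {V : Type*} [DecidableEq V] (G : Finset V) (F : Finset (Finset V)) (h t : ℕ)
    (hF : ∀ A ∈ F, A ⊆ G ∧ h ≤ A.card) (hG : 0 < G.card)
    (ht : (F.card : ℝ) < Real.exp (t * (h / G.card))) :
    ∃ T ⊆ G, T.card ≤ t ∧ ∀ A ∈ F, (T ∩ A).Nonempty := by
  have hg : (0 : ℝ) < G.card := by exact_mod_cast hG
  set r : ℝ := h / G.card with hr
  have hr0 : 0 ≤ r := by positivity
  have main : ∀ s : ℕ, ∃ T ⊆ G, T.card ≤ s ∧
      ((F.filter (fun A => Disjoint T A)).card : ℝ) ≤ F.card * Real.exp (-(s * r)) := by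
    intro s
    induction s with
    | zero =>
      refine ⟨∅, by simp, by simp, ?_⟩
      simp
    | succ s ih =>
      obtain ⟨T, hTG, hTc, hT⟩ := ih
      set F' := F.filter (fun A => Disjoint T A) with hF'
      have hsum : (h : ℝ) * F'.card ≤ ∑ v ∈ G, ((F'.filter (fun A => v ∈ A)).card : ℝ) := by
        have e1 : ∑ v ∈ G, (F'.filter (fun A => v ∈ A)).card = ∑ A ∈ F', A.card := by
          simp only [Finset.card_filter]
          rw [Finset.sum_comm]
          refine Finset.sum_congr rfl (fun A hA => ?_)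
          rw [← Finset.card_filter]
          congr 1
          ext v
          simp only [Finset.mem_filter, and_iff_right_iff_imp]
          intro hv
          exact (hF A (Finset.mem_filter.1 hA).1).1 hv
        have e2 : h * F'.card ≤ ∑ A ∈ F', A.card := by
          rw [mul_comm, ← smul_eq_mul]
          exact Finset.card_nsmul_le_sum F' _ _ (fun A hA => (hF A (Finset.mem_filter.1 hA).1).2)
        rw [← e1] at e2
        exact_mod_cast e2
      obtain ⟨v, hvG, hv⟩ : ∃ v ∈ G, r * F'.card ≤ ((F'.filter (fun A => v ∈ A)).card : ℝ) := by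
        by_contra hcon
        push Not at hcon
        have hne : G.Nonempty := Finset.card_pos.1 hG
        have h5 : ∑ v ∈ G, ((F'.filter (fun A => v ∈ A)).card : ℝ) < ∑ _v ∈ G, r * F'.card :=
          Finset.sum_lt_sum_of_nonempty hne hcon
        rw [Finset.sum_const, nsmul_eq_mul] at h5
        have h6 : (G.card : ℝ) * (r * F'.card) = h * F'.card := by
          rw [hr]; field_simp
        linarith
      refine ⟨insert v T, Finset.insert_subset hvG hTG,
        (Finset.card_insert_le v T).trans (by omega), ?_⟩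
      have h7 : ((F.filter (fun A => Disjoint (insert v T) A)).card : ℝ) =
          F'.card - (F'.filter (fun A => v ∈ A)).card := by
        have h8 : F.filter (fun A => Disjoint (insert v T) A) = F'.filter (fun A => ¬ v ∈ A) := by
          ext A
          simp only [hF', Finset.mem_filter, Finset.disjoint_insert_left]
          tauto
        rw [h8]
        have h9 := Finset.card_filter_add_card_filter_not (s := F') (fun A => v ∈ A)
        have h10 : ((F'.filter (fun A => v ∈ A)).card : ℝ) +
            ((F'.filter (fun A => ¬ v ∈ A)).card : ℝ) = F'.card := by exact_mod_cast h9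
        linarith
      rw [h7]
      have h11 : (F'.card : ℝ) - (F'.filter (fun A => v ∈ A)).card ≤ (1 - r) * F'.card := by
        linarith
      have h12 : (1 - r) ≤ Real.exp (-r) := by linarith [Real.add_one_le_exp (-r)]
      have h13 : (0 : ℝ) ≤ F'.card := by positivity
      calc (F'.card : ℝ) - (F'.filter (fun A => v ∈ A)).card ≤ (1 - r) * F'.card := h11
        _ ≤ Real.exp (-r) * F'.card := mul_le_mul_of_nonneg_right h12 h13
        _ ≤ Real.exp (-r) * (F.card * Real.exp (-(s * r))) :=
            mul_le_mul_of_nonneg_left hT (Real.exp_pos _).le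
        _ = F.card * Real.exp (-((s + 1 : ℕ) * r)) := by
            rw [mul_left_comm, ← Real.exp_add]
            congr 2
            push_cast
            ring
  obtain ⟨T, hTG, hTc, hT⟩ := main t
  refine ⟨T, hTG, hTc, fun A hA => ?_⟩
  by_contra hne
  rw [Finset.not_nonempty_iff_eq_empty] at hne
  have hmem : A ∈ F.filter (fun A => Disjoint T A) := by
    rw [Finset.mem_filter]
    exact ⟨hA, Finset.disjoint_iff_inter_eq_empty.2 hne⟩
  have h1 : 1 ≤ (F.filter (fun A => Disjoint T A)).card := Finset.card_pos.2 ⟨A, hmem⟩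
  have h2 : (1 : ℝ) ≤ ((F.filter (fun A => Disjoint T A)).card : ℝ) := by exact_mod_cast h1
  have h3 : (F.card : ℝ) * Real.exp (-(t * r)) < 1 := by
    rw [Real.exp_neg, ← div_eq_mul_inv, div_lt_one (Real.exp_pos _)]
    exact ht
  linarith

end Pool.Agent.H59.SqJ
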