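import Mathlib

/-! Solutions of `A * A = J` as maps `out`, and the triangle count. -/

set_option autoImplicit false

namespace Pool.Agent.H59.SqJ

open Finset

/-- `o x` is the set of the out-neighbours of `x`. -/
structure IsSol {V : Type} [Fintype V] [DecidableEq V] (c : ℕ) (o : V → Finset V) : Prop where
  out : ∀ x, (o x).card = c
  inn : ∀ y, (univ.filter (fun x => y ∈ o x)).card = c
  mid : ∀ x w, ∃! y, y ∈ o x ∧ w ∈ o y

section
variable {V : Type} [Fintype V] [DecidableEq V] {c : ℕ} {o : V → Finset V}

/-- two different out-neighbours of a vertex have disjoint out-neighbourhoods -/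
theorem IsSol.disj (h : IsSol c o) {x y z : V} (hy : y ∈ o x) (hz : z ∈ o x) (hne : y ≠ z) :
    Disjoint (o y) (o z) := by
  rw [Finset.disjoint_left]
  intro w hw hw'
  exact hne ((h.mid x w).unique ⟨hy, hw⟩ ⟨hz, hw'⟩)

theorem IsSol.card_mid (h : IsSol c o) (x w : V) :
    (univ.filter (fun y => y ∈ o x ∧ w ∈ o y)).card = 1 := by
  obtain ⟨y, hy, hu⟩ := h.mid x w
  rw [Finset.card_eq_one]
  refine ⟨y, ?_⟩
  ext z
  simp only [Finset.mem_filter, Finset.mem_univ, true_and, Finset.mem_singleton]
  exact ⟨fun hz => hu z hz, fun hz => hz ▸ hy⟩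

/-- indicator of the closed walks of length three -/
def tri (o : V → Finset V) (x y z : V) : ℕ := if y ∈ o x ∧ z ∈ o y ∧ x ∈ o z then 1 else 0

theorem tri_rot (o : V → Finset V) (x y z : V) : tri o x y z = tri o y z x := by
  unfold tri
  congr 1
  apply propext
  tauto

theorem sum_rot (f : V → V → V → ℕ) :
    ∑ x, ∑ y, ∑ z, f x y z = ∑ x, ∑ y, ∑ z, f y z x := by
  calc ∑ x, ∑ y, ∑ z, f x y z = ∑ y, ∑ x, ∑ z, f x y z := Finset.sum_comm
    _ = ∑ y, ∑ z, ∑ x, f x y z := Finset.sum_congr rfl (fun y _ => Finset.sum_comm)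
    _ = ∑ z, ∑ y, ∑ x, f x y z := Finset.sum_comm
    _ = ∑ z, ∑ x, ∑ y, f x y z := Finset.sum_congr rfl (fun y _ => Finset.sum_comm)

/-- every arc lies in exactly one closed walk of length three -/
theorem IsSol.sum_tri (h : IsSol c o) (x y : V) :
    ∑ z, tri o x y z = if y ∈ o x then 1 else 0 := by
  by_cases hy : y ∈ o x
  · rw [if_pos hy]
    have : ∑ z, tri o x y z = (univ.filter (fun z => z ∈ o y ∧ x ∈ o z)).card := by
      rw [Finset.card_filter]
      refine Finset.sum_congr rfl (fun z _ => ?_)
      unfold tri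
      simp [hy]
    rw [this, h.card_mid y x]
  · rw [if_neg hy]
    refine Finset.sum_eq_zero (fun z _ => ?_)
    unfold tri
    simp [hy]

theorem IsSol.sum_tri' (h : IsSol c o) (y z : V) :
    ∑ x, tri o x y z = if z ∈ o y then 1 else 0 := by
  rw [← h.sum_tri y z]
  exact Finset.sum_congr rfl (fun x _ => tri_rot o x y z)

/-- The number of expensive arcs. -/
theorem IsSol.expensive (h : IsSol c o) (hV : Fintype.card V = c ^ 2) (b : ℕ)
    (U H : V → Finset V) (hU : ∀ y, U y ⊆ o y) (hHU : ∀ x, H x ⊆ U x)
    (hH : ∀ x, ∀ y ∈ H x, b * (U y).card ≤ c) :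
    3 * b * ∑ x, (H x).card ≤ (b + 3) * c ^ 3 := by
  classical
  set e : V → V → ℕ := fun x y => if y ∈ H x then 1 else 0 with he
  have he01 : ∀ x y, e x y = 0 ∨ e x y = 1 := by
    intro x y
    simp only [he]
    split_ifs <;> simp
  -- total number
  have h1 : ∑ x, (H x).card = ∑ x, ∑ y, ∑ z, tri o x y z * e x y := by
    refine Finset.sum_congr rfl (fun x _ => ?_)
    rw [Finset.card_eq_sum_ones, ← Finset.sum_subset (Finset.subset_univ (H x))]
    · refine Finset.sum_congr rfl (fun y hy => ?_)
      have hyo : y ∈ o x := hU x (hHU x hy)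
      rw [← Finset.sum_mul, h.sum_tri, if_pos hyo]
      simp [he, hy]
    · intro y _ hy
      refine Finset.sum_eq_zero (fun z _ => ?_)
      simp [he, hy]
  set S : ℕ := ∑ x, ∑ y, ∑ z, tri o x y z * (e x y * (1 - e y z)) with hS
  set R : ℕ := ∑ x, ∑ y, ∑ z, tri o x y z * (e x y * e y z) with hR
  have h2 : ∑ x, (H x).card = S + R := by
    rw [h1, hS, hR, ← Finset.sum_add_distrib]
    refine Finset.sum_congr rfl (fun x _ => ?_)
    rw [← Finset.sum_add_distrib]
    refine Finset.sum_congr rfl (fun y _ => ?_)
    rw [← Finset.sum_add_distrib]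
    refine Finset.sum_congr rfl (fun z _ => ?_)
    rcases he01 x y with h3 | h3 <;> rcases he01 y z with h4 | h4 <;> simp [h3, h4]
  have hS1 : S = ∑ x, ∑ y, ∑ z, tri o x y z * (e y z * (1 - e z x)) := by
    rw [hS, sum_rot]
    refine Finset.sum_congr rfl (fun x _ => Finset.sum_congr rfl (fun y _ =>
      Finset.sum_congr rfl (fun z _ => ?_)))
    rw [← tri_rot]
  have hS2 : S = ∑ x, ∑ y, ∑ z, tri o x y z * (e z x * (1 - e x y)) := by
    rw [hS1, sum_rot]
    refine Finset.sum_congr rfl (fun x _ => Finset.sum_congr rfl (fun y _ =>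
      Finset.sum_congr rfl (fun z _ => ?_)))
    rw [← tri_rot]
  have hT : ∑ x, ∑ y, ∑ z, tri o x y z = c ^ 3 := by
    have : ∀ x : V, ∑ y, ∑ z, tri o x y z = c := by
      intro x
      rw [← h.out x, Finset.card_eq_sum_ones, ← Finset.sum_subset (Finset.subset_univ (o x))]
      · refine Finset.sum_congr rfl (fun y hy => ?_)
        rw [h.sum_tri, if_pos hy]
      · intro y _ hy
        rw [h.sum_tri, if_neg hy]
    rw [Finset.sum_congr rfl (fun x _ => this x), Finset.sum_const, Finset.card_univ, hV]
    simp only [smul_eq_mul]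
    ring
  have h3S : 3 * S ≤ c ^ 3 := by
    have h5 : 3 * S = ∑ x, ∑ y, ∑ z, tri o x y z *
        (e x y * (1 - e y z) + e y z * (1 - e z x) + e z x * (1 - e x y)) := by
      have : 3 * S = S + S + S := by ring
      rw [this]
      have e2 := hS1
      have e3 := hS2
      calc S + S + S = (∑ x, ∑ y, ∑ z, tri o x y z * (e x y * (1 - e y z))) +
            (∑ x, ∑ y, ∑ z, tri o x y z * (e y z * (1 - e z x))) +
            (∑ x, ∑ y, ∑ z, tri o x y z * (e z x * (1 - e x y))) := by
              rw [← e3, ← e2]
        _ = _ := by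
              rw [← Finset.sum_add_distrib, ← Finset.sum_add_distrib]
              refine Finset.sum_congr rfl (fun x _ => ?_)
              rw [← Finset.sum_add_distrib, ← Finset.sum_add_distrib]
              refine Finset.sum_congr rfl (fun y _ => ?_)
              rw [← Finset.sum_add_distrib, ← Finset.sum_add_distrib]
              refine Finset.sum_congr rfl (fun z _ => ?_)
              ring
    rw [h5, ← hT]
    refine Finset.sum_le_sum (fun x _ => Finset.sum_le_sum (fun y _ => Finset.sum_le_sum
      (fun z _ => ?_)))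
    have h6 : e x y * (1 - e y z) + e y z * (1 - e z x) + e z x * (1 - e x y) ≤ 1 := by
      rcases he01 x y with h3 | h3 <;> rcases he01 y z with h4 | h4 <;>
        rcases he01 z x with h5 | h5 <;> simp [h3, h4, h5]
    calc tri o x y z * (e x y * (1 - e y z) + e y z * (1 - e z x) + e z x * (1 - e x y))
        ≤ tri o x y z * 1 := Nat.mul_le_mul_left _ h6
      _ = tri o x y z := by ring
  have hbR : b * R ≤ c ^ 3 := by
    have h7 : R ≤ ∑ y ∈ univ.filter (fun y => b * (U y).card ≤ c), (U y).card := by
      rw [hR]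
      have h8 : ∑ x, ∑ y, ∑ z, tri o x y z * (e x y * e y z) =
          ∑ y, ∑ z, ∑ x, tri o x y z * (e x y * e y z) := by
        rw [Finset.sum_comm]
        exact Finset.sum_congr rfl (fun y _ => Finset.sum_comm)
      rw [h8, Finset.sum_filter]
      refine Finset.sum_le_sum (fun y _ => ?_)
      by_cases hy : b * (U y).card ≤ c
      · rw [if_pos hy, Finset.card_eq_sum_ones, ← Finset.sum_subset (Finset.subset_univ (U y))]
        · refine Finset.sum_le_sum (fun z hz => ?_)
          have h9 : ∑ x, tri o x y z * (e x y * e y z) ≤ ∑ x, tri o x y z := by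
            refine Finset.sum_le_sum (fun x _ => ?_)
            have h10 : e x y * e y z ≤ 1 := by
              rcases he01 x y with h3 | h3 <;> rcases he01 y z with h4 | h4 <;> simp [h3, h4]
            calc tri o x y z * (e x y * e y z) ≤ tri o x y z * 1 := Nat.mul_le_mul_left _ h10
              _ = tri o x y z := by ring
          refine h9.trans ?_
          rw [h.sum_tri' y z]
          split_ifs <;> simp
        · intro z _ hz
          refine Finset.sum_eq_zero (fun x _ => ?_)
          have : e y z = 0 := by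
            simp only [he, ite_eq_right_iff]
            intro hz'
            exact absurd (hHU y hz') hz
          simp [this]
      · rw [if_neg hy]
        refine le_of_eq (Finset.sum_eq_zero (fun z _ => Finset.sum_eq_zero (fun x _ => ?_)))
        have : e x y = 0 := by
          simp only [he, ite_eq_right_iff]
          intro hx'
          exact absurd (hH x y hx') hy
        simp [this]
    calc b * R ≤ b * ∑ y ∈ univ.filter (fun y => b * (U y).card ≤ c), (U y).card :=
          Nat.mul_le_mul_left _ h7
      _ = ∑ y ∈ univ.filter (fun y => b * (U y).card ≤ c), b * (U y).card := Finset.mul_sum _ _ _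
      _ ≤ ∑ y ∈ univ.filter (fun y => b * (U y).card ≤ c), c :=
          Finset.sum_le_sum (fun y hy => (Finset.mem_filter.1 hy).2)
      _ = (univ.filter (fun y => b * (U y).card ≤ c)).card * c := by
          rw [Finset.sum_const, smul_eq_mul]
      _ ≤ c ^ 2 * c := by
          refine Nat.mul_le_mul_right _ ?_
          rw [← hV, ← Finset.card_univ]
          exact Finset.card_filter_le _ _
      _ = c ^ 3 := by ring
  rw [h2]
  calc 3 * b * (S + R) = b * (3 * S) + 3 * (b * R) := by ring
    _ ≤ b * c ^ 3 + 3 * c ^ 3 := Nat.add_le_add (Nat.mul_le_mul_left _ h3S)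
        (Nat.mul_le_mul_left _ hbR)
    _ = (b + 3) * c ^ 3 := by ring

end

end Pool.Agent.H59.SqJ
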