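import Pool.Agent.H59.SqJ.Count
import Pool.Agent.H59.SqJ.Struct

/-! Every solution has a short code. -/

set_option autoImplicit false

namespace Pool.Agent.H59.SqJ

open Finset

section
variable {V : Type} [Fintype V] [DecidableEq V]

omit [Fintype V] in
theorem exists_pop (o : V → Finset V) (T : Finset V) (y : V) (a : ℕ) (ha : 1 ≤ a) :
    ∃ Z ⊆ T, a * Z.card ≤ (o y ∩ Z.biUnion o).card ∧
      ∀ r ∈ T, (o r ∩ (o y \ Z.biUnion o)).card < a := by
  classical
  let F := T.powerset.filter (fun Z => a * Z.card ≤ (o y ∩ Z.biUnion o).card)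
  have hF : F.Nonempty := ⟨∅, by simp [F]⟩
  obtain ⟨Z, hZ, hmax⟩ := Finset.exists_max_image F Finset.card hF
  rw [Finset.mem_filter, Finset.mem_powerset] at hZ
  refine ⟨Z, hZ.1, hZ.2, fun r hr => ?_⟩
  by_contra hcon
  push Not at hcon
  by_cases hrZ : r ∈ Z
  · have h0 : o r ∩ (o y \ Z.biUnion o) = ∅ := by
      rw [Finset.eq_empty_iff_forall_notMem]
      intro w hw
      rw [Finset.mem_inter, Finset.mem_sdiff] at hw
      exact hw.2.2 (Finset.mem_biUnion.2 ⟨r, hrZ, hw.1⟩)
    rw [h0, Finset.card_empty] at hcon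
    omega
  · have h1 : insert r Z ∈ F := by
      rw [Finset.mem_filter, Finset.mem_powerset]
      refine ⟨Finset.insert_subset hr hZ.1, ?_⟩
      rw [Finset.card_insert_of_notMem hrZ, Finset.biUnion_insert]
      have h2 : ((o y ∩ Z.biUnion o) ∪ (o r ∩ (o y \ Z.biUnion o))).card =
          (o y ∩ Z.biUnion o).card + (o r ∩ (o y \ Z.biUnion o)).card := by
        refine Finset.card_union_of_disjoint ?_
        rw [Finset.disjoint_left]
        intro w hw hw'
        rw [Finset.mem_inter] at hw hw'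
        rw [Finset.mem_sdiff] at hw'
        exact hw'.2.2 hw.2
      have h3 : (o y ∩ Z.biUnion o) ∪ (o r ∩ (o y \ Z.biUnion o)) ⊆ o y ∩ (o r ∪ Z.biUnion o) := by
        intro w hw
        simp only [Finset.mem_union, Finset.mem_inter, Finset.mem_sdiff] at hw ⊢
        tauto
      have h4 := Finset.card_le_card h3
      have h5 := hZ.2
      have h6 : a * (Z.card + 1) = a * Z.card + a := by ring
      omega
    have h7 := hmax _ h1
    rw [Finset.card_insert_of_notMem hrZ] at h7
    omega

/-- The vertices whose out-neighbourhood meets `o y \ W(Z)` in at least `a` points. -/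
def PP (o : V → Finset V) (a : ℕ) (y : V) (Z : Finset V) : Finset V :=
  univ.filter (fun y' => a ≤ (o y' ∩ (o y \ Z.biUnion o)).card)

theorem exists_T (o : V → Finset V) (a M h t : ℕ) (hV : 0 < Fintype.card V)
    (ht : 2 * Real.exp 1 * (Fintype.card V : ℝ) ^ (M + 1) < Real.exp (t * (h / Fintype.card V))) :
    ∃ T : Finset V, T.card ≤ t ∧ ∀ y, ∀ Z : Finset V, Z.card ≤ M →
      (h ≤ (PP o a y Z).card → (T ∩ PP o a y Z).Nonempty) ∧
      (h ≤ (o y \ Z.biUnion o).card → (T ∩ (o y \ Z.biUnion o)).Nonempty) := by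
  classical
  have hn : (0 : ℝ) < Fintype.card V := by exact_mod_cast hV
  have hn1 : (1 : ℝ) ≤ Fintype.card V := by exact_mod_cast hV
  set SZ : Finset (Finset V) := univ.filter (fun Z => Z.card ≤ M) with hSZ
  set F1 := ((univ ×ˢ SZ).image (fun p : V × Finset V => PP o a p.1 p.2)).filter
    (fun A => h ≤ A.card) with hF1
  set F2 := ((univ ×ˢ SZ).image (fun p : V × Finset V => o p.1 \ p.2.biUnion o)).filter
    (fun A => h ≤ A.card) with hF2
  have hcardZ : (SZ.card : ℝ) ≤ Real.exp 1 * (Fintype.card V : ℝ) ^ M := by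
    have h1 := card_set_le (V := V) M (1 / Fintype.card V) (by positivity)
      (by rw [div_le_one hn]; exact hn1) SZ (fun Z hZ => (Finset.mem_filter.1 hZ).2)
    rw [one_div, inv_pow, inv_mul_cancel₀ hn.ne', ← div_eq_mul_inv, div_le_iff₀ (by positivity)] at h1
    exact h1
  have hprod : (((univ : Finset V) ×ˢ SZ).card : ℝ) ≤ Real.exp 1 * (Fintype.card V : ℝ) ^ (M + 1) := by
    rw [Finset.card_product, Finset.card_univ]
    push_cast
    calc (Fintype.card V : ℝ) * SZ.card ≤ Fintype.card V * (Real.exp 1 * (Fintype.card V : ℝ) ^ M) :=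
          mul_le_mul_of_nonneg_left hcardZ hn.le
      _ = _ := by ring
  have hF1c : (F1.card : ℝ) ≤ Real.exp 1 * (Fintype.card V : ℝ) ^ (M + 1) := by
    refine le_trans ?_ hprod
    exact_mod_cast (Finset.card_filter_le _ _).trans Finset.card_image_le
  have hF2c : (F2.card : ℝ) ≤ Real.exp 1 * (Fintype.card V : ℝ) ^ (M + 1) := by
    refine le_trans ?_ hprod
    exact_mod_cast (Finset.card_filter_le _ _).trans Finset.card_image_le
  have hF : ((F1 ∪ F2).card : ℝ) ≤ 2 * Real.exp 1 * (Fintype.card V : ℝ) ^ (M + 1) := by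
    have h1 : ((F1 ∪ F2).card : ℝ) ≤ (F1.card : ℝ) + F2.card := by
      exact_mod_cast Finset.card_union_le F1 F2
    linarith
  obtain ⟨T, -, hTc, hhit⟩ := exists_hitting (univ : Finset V) (F1 ∪ F2) h t
    (fun A hA => ⟨Finset.subset_univ A, by
      rcases Finset.mem_union.1 hA with hA | hA
      · exact (Finset.mem_filter.1 hA).2
      · exact (Finset.mem_filter.1 hA).2⟩)
    (by rw [Finset.card_univ]; exact hV)
    (by rw [Finset.card_univ]; exact lt_of_le_of_lt hF ht)
  refine ⟨T, hTc, fun y Z hZ => ⟨fun hh => ?_, fun hh => ?_⟩⟩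
  · refine hhit _ (Finset.mem_union_left _ ?_)
    rw [hF1, Finset.mem_filter, Finset.mem_image]
    exact ⟨⟨(y, Z), by simp [hSZ, hZ], rfl⟩, hh⟩
  · refine hhit _ (Finset.mem_union_right _ ?_)
    rw [hF2, Finset.mem_filter, Finset.mem_image]
    exact ⟨⟨(y, Z), by simp [hSZ, hZ], rfl⟩, hh⟩

/-- the out-neighbours of `x` whose out-neighbourhood meets `A` -/
def JJ (o : V → Finset V) (x : V) (A : Finset V) : Finset V :=
  (o x).filter (fun z => (o z ∩ A).Nonempty)

theorem exists_Q (c : ℕ) (o : V → Finset V) (ho : ∀ x, (o x).card = c) (hc : 0 < c)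
    (A : V → Finset V) (k q : ℕ)
    (hq : (Fintype.card V : ℝ) < Real.exp (q * (k / c))) (x : V) :
    ∃ Q ⊆ o x, Q.card ≤ q ∧ ∀ y, k ≤ (JJ o x (A y)).card → (Q ∩ JJ o x (A y)).Nonempty := by
  classical
  set F := (univ.image (fun y => JJ o x (A y))).filter (fun A => k ≤ A.card) with hF
  have hFc : (F.card : ℝ) ≤ Fintype.card V := by
    have h1 : F.card ≤ (univ : Finset V).card :=
      (Finset.card_filter_le _ _).trans Finset.card_image_le
    rw [Finset.card_univ] at h1
    exact_mod_cast h1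
  obtain ⟨Q, hQ, hQc, hhit⟩ := exists_hitting (o x) F k q
    (fun A hA => ⟨by
      rw [hF, Finset.mem_filter, Finset.mem_image] at hA
      obtain ⟨⟨y, _, rfl⟩, _⟩ := hA
      exact Finset.filter_subset _ _, (Finset.mem_filter.1 hA).2⟩)
    (by rw [ho]; exact hc)
    (by rw [ho]; exact lt_of_le_of_lt hFc hq)
  refine ⟨Q, hQ, hQc, fun y hy => hhit _ ?_⟩
  rw [hF, Finset.mem_filter, Finset.mem_image]
  exact ⟨⟨y, Finset.mem_univ _, rfl⟩, hy⟩

/-- the unpopular part of the out-neighbourhood of `y` -/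
def UU (o : V → Finset V) (Z : V → Finset V) (y : V) : Finset V := o y \ (Z y).biUnion o

/-- the popular part of the out-neighbourhood of `y` -/
def Pop (o : V → Finset V) (Z : V → Finset V) (y : V) : Finset V := o y ∩ (Z y).biUnion o

/-- the candidates for the cheap out-neighbours of `x` -/
def BB (c b : ℕ) (o : V → Finset V) (T : Finset V) (Z Q : V → Finset V) (x : V) : Finset V :=
  univ.filter (fun y => c ≤ b * (UU o Z y).card ∧ ∀ z ∈ Q x, Disjoint (o z) (UU o Z y ∩ T))

structure Good (c b m h q t : ℕ) (o : V → Finset V) (T : Finset V) (Z Q : V → Finset V) :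
    Prop where
  T_card : T.card ≤ t
  Z_sub : ∀ y, Z y ⊆ T
  Z_card : ∀ y, (Z y).card ≤ m
  Q_sub : ∀ x, Q x ⊆ o x
  Q_card : ∀ x, (Q x).card ≤ q
  B_sum : ∑ x, (BB c b o T Z Q x).card ≤ Fintype.card V * h * c

theorem exists_good (c a b m k h q t : ℕ) (o : V → Finset V) (hs : IsSol c o) (hc : 0 < c)
    (hV : 0 < Fintype.card V) (ha : 1 ≤ a) (ham : c ≤ a * m) (hb : b * (k * a + h) ≤ c)
    (ht : 2 * Real.exp 1 * (Fintype.card V : ℝ) ^ (m + k + 1) <
      Real.exp (t * (h / Fintype.card V)))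
    (hq : (Fintype.card V : ℝ) < Real.exp (q * (k / c))) :
    ∃ T Z Q, Good c b m h q t o T Z Q := by
  classical
  obtain ⟨T, hTc, hT⟩ := exists_T o a (m + k) h t hV ht
  choose Z hZT hZa hZr using fun y => exists_pop o T y a ha
  choose Q hQ hQc hQh using fun x => exists_Q c o hs.out hc (fun y => UU o Z y ∩ T) k q hq x
  have hZm : ∀ y, (Z y).card ≤ m := by
    intro y
    have h1 := hZa y
    have h2 : (o y ∩ (Z y).biUnion o).card ≤ c := by
      rw [← hs.out y]
      exact Finset.card_le_card Finset.inter_subset_left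
    have h3 : a * (Z y).card ≤ a * m := by omega
    exact Nat.le_of_mul_le_mul_left h3 (by omega)
  have hPP : ∀ y, (PP o a y (Z y)).card < h := by
    intro y
    by_contra hcon
    push Not at hcon
    obtain ⟨r, hr⟩ := (hT y (Z y) ((hZm y).trans (by omega))).1 hcon
    rw [Finset.mem_inter] at hr
    have h1 := hZr y r hr.1
    have h2 := (Finset.mem_filter.1 hr.2).2
    omega
  have key : ∀ x y, y ∈ BB c b o T Z Q x → ∃ v ∈ PP o a y (Z y), v ∈ o x := by
    intro x y hy
    by_contra hcon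
    push Not at hcon
    have hlt : ∀ v ∈ o x, (o v ∩ UU o Z y).card < a := by
      intro v hv
      by_contra h1
      push Not at h1
      exact hcon v (Finset.mem_filter.2 ⟨Finset.mem_univ _, h1⟩) hv
    have hy' := (Finset.mem_filter.1 hy).2
    set J := JJ o x (UU o Z y ∩ T) with hJ
    have hJk : J.card < k := by
      by_contra h1
      push Not at h1
      obtain ⟨z, hz⟩ := hQh x y h1
      rw [Finset.mem_inter] at hz
      have h2 := hy'.2 z hz.1
      have h3 := (Finset.mem_filter.1 hz.2).2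
      rw [Finset.disjoint_iff_inter_eq_empty] at h2
      rw [h2] at h3
      exact Finset.not_nonempty_empty h3
    have hJx : ∀ z ∈ J, z ∈ o x := fun z hz => (Finset.mem_filter.1 hz).1
    have hcard : (UU o Z y ∩ J.biUnion o).card ≤ k * a := by
      have h1 : UU o Z y ∩ J.biUnion o ⊆ J.biUnion (fun z => o z ∩ UU o Z y) := by
        intro w hw
        rw [Finset.mem_inter, Finset.mem_biUnion] at hw
        obtain ⟨hw1, z, hz, hw2⟩ := hw
        exact Finset.mem_biUnion.2 ⟨z, hz, Finset.mem_inter.2 ⟨hw2, hw1⟩⟩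
      calc (UU o Z y ∩ J.biUnion o).card ≤ (J.biUnion (fun z => o z ∩ UU o Z y)).card :=
            Finset.card_le_card h1
        _ ≤ J.card * a := Finset.card_biUnion_le_card_mul _ _ _ (fun z hz => (hlt z (hJx z hz)).le)
        _ ≤ k * a := Nat.mul_le_mul_right _ hJk.le
    have hbig : h ≤ (o y \ (Z y ∪ J).biUnion o).card := by
      have h1 : UU o Z y \ J.biUnion o ⊆ o y \ (Z y ∪ J).biUnion o := by
        intro w hw
        simp only [UU, Finset.mem_sdiff, Finset.mem_biUnion, Finset.mem_union, not_exists,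
          not_and] at hw ⊢
        refine ⟨hw.1.1, fun z hz => ?_⟩
        rcases hz with hz | hz
        · exact hw.1.2 z hz
        · exact hw.2 z hz
      have h2 := Finset.card_le_card h1
      have h3 := Finset.card_sdiff_add_card_inter (UU o Z y) (J.biUnion o)
      have h4 : b * (k * a + h) ≤ b * (UU o Z y).card := hb.trans hy'.1
      have hb0 : 0 < b := by
        rcases Nat.eq_zero_or_pos b with h0 | h0
        · rw [h0] at hy'
          omega
        · exact h0
      have h5 := Nat.le_of_mul_le_mul_left h4 hb0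
      omega
    have hZJ : (Z y ∪ J).card ≤ m + k :=
      (Finset.card_union_le _ _).trans (Nat.add_le_add (hZm y) hJk.le)
    obtain ⟨w, hw⟩ := (hT y (Z y ∪ J) hZJ).2 hbig
    rw [Finset.mem_inter, Finset.mem_sdiff] at hw
    obtain ⟨hwT, hwy, hwn⟩ := hw
    obtain ⟨z, ⟨hzx, hwz⟩, -⟩ := hs.mid x w
    have hzJ : z ∈ J := by
      rw [hJ, JJ, Finset.mem_filter]
      refine ⟨hzx, w, ?_⟩
      rw [Finset.mem_inter, Finset.mem_inter, UU, Finset.mem_sdiff]
      refine ⟨hwz, ⟨hwy, fun h1 => hwn ?_⟩, hwT⟩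
      obtain ⟨v, hv, hwv⟩ := Finset.mem_biUnion.1 h1
      exact Finset.mem_biUnion.2 ⟨v, Finset.mem_union_left _ hv, hwv⟩
    exact hwn (Finset.mem_biUnion.2 ⟨z, Finset.mem_union_right _ hzJ, hwz⟩)
  refine ⟨T, Z, Q, hTc, hZT, hZm, hQ, hQc, ?_⟩
  calc ∑ x, (BB c b o T Z Q x).card
      ≤ ∑ x, ∑ y, ((PP o a y (Z y)).filter (fun v => v ∈ o x)).card := by
        refine Finset.sum_le_sum (fun x _ => ?_)
        rw [Finset.card_eq_sum_ones]
        refine le_trans (Finset.sum_le_sum (fun y hy => ?_))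
          (Finset.sum_le_sum_of_subset (Finset.subset_univ (BB c b o T Z Q x)))
        obtain ⟨v, hv, hvx⟩ := key x y hy
        exact Finset.card_pos.2 ⟨v, Finset.mem_filter.2 ⟨hv, hvx⟩⟩
    _ = ∑ y, ∑ x, ((PP o a y (Z y)).filter (fun v => v ∈ o x)).card := Finset.sum_comm
    _ = ∑ y, (PP o a y (Z y)).card * c := by
        refine Finset.sum_congr rfl (fun y _ => ?_)
        simp only [Finset.card_filter]
        rw [Finset.sum_comm, Finset.card_eq_sum_ones, Finset.sum_mul]
        refine Finset.sum_congr rfl (fun v _ => ?_)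
        rw [← Finset.card_filter, hs.inn v, one_mul]
    _ ≤ ∑ _y : V, h * c := Finset.sum_le_sum (fun y _ => Nat.mul_le_mul_right _ (hPP y).le)
    _ = Fintype.card V * h * c := by
        rw [Finset.sum_const, Finset.card_univ, smul_eq_mul, mul_assoc]

/-- the rows of the vertices of `T` -/
def rowsOf (o : V → Finset V) (T : Finset V) (v : V) : Finset V := if v ∈ T then o v else ∅

/-- the columns of the vertices of `T` -/
def colsOf (o : V → Finset V) (T : Finset V) (w : V) : Finset V :=
  if w ∈ T then univ.filter (fun v => w ∈ o v) else ∅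

omit [Fintype V] in
theorem biUnion_rowsOf (o : V → Finset V) {T S : Finset V} (hS : S ⊆ T) :
    S.biUnion (rowsOf o T) = S.biUnion o := by
  refine Finset.biUnion_congr rfl (fun v hv => ?_)
  rw [rowsOf, if_pos (hS hv)]

/-- `BB` computed from the code -/
def Bset (c b : ℕ) (T : Finset V) (rows cols Z P Q : V → Finset V) (x : V) : Finset V :=
  univ.filter (fun y => c ≤ b * (c - (P y).card) ∧
    ∀ z ∈ Q x, ∀ w ∈ T, z ∈ cols w → y ∈ cols w → w ∈ (Z y).biUnion rows)

theorem card_UU (c : ℕ) (o : V → Finset V) (ho : ∀ x, (o x).card = c) (Z : V → Finset V) (y : V) :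
    (UU o Z y).card = c - (Pop o Z y).card := by
  have h := Finset.card_sdiff_add_card_inter (o y) ((Z y).biUnion o)
  rw [ho y] at h
  rw [UU, Pop]
  omega

theorem BB_eq (c b : ℕ) (o : V → Finset V) (ho : ∀ x, (o x).card = c) (T : Finset V)
    (Z Q : V → Finset V) (hZ : ∀ y, Z y ⊆ T) (x : V) :
    BB c b o T Z Q x = Bset c b T (rowsOf o T) (colsOf o T) Z (Pop o Z) Q x := by
  ext y
  rw [BB, Bset, Finset.mem_filter, Finset.mem_filter, card_UU c o ho, biUnion_rowsOf o (hZ y)]
  simp only [Finset.mem_univ, true_and]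
  refine and_congr_right (fun _ => forall_congr' (fun z => forall_congr' (fun _ => ?_)))
  rw [Finset.disjoint_left]
  constructor
  · intro h w hw hz hy
    rw [colsOf, if_pos hw, Finset.mem_filter] at hz hy
    by_contra hn
    exact h hz.2 (Finset.mem_inter.2 ⟨Finset.mem_sdiff.2 ⟨hy.2, hn⟩, hw⟩)
  · intro h w hz hw
    rw [Finset.mem_inter, UU, Finset.mem_sdiff] at hw
    refine hw.1.2 (h w hw.2 ?_ ?_)
    · rw [colsOf, if_pos hw.2, Finset.mem_filter]
      exact ⟨Finset.mem_univ _, hz⟩
    · rw [colsOf, if_pos hw.2, Finset.mem_filter]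
      exact ⟨Finset.mem_univ _, hw.1.1⟩

end

end Pool.Agent.H59.SqJ
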