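import Pool.Agent.H59.SqJ.Bound

/-! Choice of the parameters. -/

set_option autoImplicit false

namespace Pool.Agent.H59.SqJ

open Finset

/-- The total exponent of the code. -/
theorem log_card_le (c a b m k h q t : ℕ) (hc : 0 < c)
    (ha : 1 ≤ a) (ham : c ≤ a * m) (hb0 : 0 < b) (hh : 0 < h) (hb : b * (k * a + h) ≤ c)
    (ht : Real.log 2 + 1 + 2 * Real.log c * (m + k + 1) < t * (h / (c : ℝ) ^ 2))
    (hq : 2 * Real.log c < q * (k / c))
    (Ω : Finset (Fin (c ^ 2) → Finset (Fin (c ^ 2)))) (hΩ : ∀ o ∈ Ω, IsSol c o)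
    (hpos : 0 < Ω.card) :
    Real.log Ω.card ≤ 5 + 2 * Real.log c * t + 8 * Real.log c * (t * c) +
      4 * Real.log c * ((c : ℝ) ^ 2 * m) + 4 * Real.log c * ((c : ℝ) ^ 2 * q) +
      (c : ℝ) ^ 3 * (Real.log (m + 1) + Real.log h + 3) +
      Real.log c * (((b + 3) * (c : ℝ) ^ 3) / (3 * b)) := by
  have hcR : (0 : ℝ) < c := by exact_mod_cast hc
  have hhR : (0 : ℝ) < h := by exact_mod_cast hh
  have hc1 : (1 : ℝ) ≤ c := by exact_mod_cast hc
  have hm1 : (0 : ℝ) < (m : ℝ) + 1 := by positivity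
  set l : ℝ := Real.log c with hl
  have hl0 : 0 ≤ l := Real.log_nonneg hc1
  have hcl : (c : ℝ) = Real.exp l := (Real.exp_log hcR).symm
  have hn : ((c ^ 2 : ℕ) : ℝ) = Real.exp (2 * l) := by
    push_cast
    rw [hcl, ← Real.exp_nat_mul]
    norm_num
  have hn2 : ((c ^ 2 : ℕ) : ℝ) ^ 2 = Real.exp (4 * l) := by
    rw [hn, ← Real.exp_nat_mul]
    congr 1
    push_cast
    ring
  have main := card_sol_le (V := Fin (c ^ 2)) c a b m k h q t (by simp) hc ha ham hb0 hh hb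
    (by
      rw [hn, ← Real.exp_nat_mul]
      have h2 : (2 : ℝ) = Real.exp (Real.log 2) := (Real.exp_log (by norm_num)).symm
      calc 2 * Real.exp 1 * Real.exp (((m + k + 1 : ℕ) : ℝ) * (2 * l))
          = Real.exp (Real.log 2 + 1 + 2 * l * (m + k + 1)) := by
            rw [Real.exp_add, Real.exp_add, ← h2]
            congr 2
            push_cast
            ring
        _ < Real.exp (t * (h / (c : ℝ) ^ 2)) := Real.exp_lt_exp.2 ht
        _ = Real.exp (t * (h / Real.exp (2 * l))) := by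
            rw [← hn]; push_cast; rfl)
    (by rw [hn]; exact Real.exp_lt_exp.2 hq) Ω hΩ
  have f1 : ((c ^ 2 : ℕ) : ℝ) ^ t * Real.exp 1 = Real.exp (2 * l * t + 1) := by
    rw [hn, ← Real.exp_nat_mul, Real.exp_add]
    congr 2
    ring
  have f2 : (((c ^ 2 : ℕ) : ℝ) ^ 2) ^ (t * c) * Real.exp 1 = Real.exp (4 * l * (t * c) + 1) := by
    rw [hn2, ← Real.exp_nat_mul, Real.exp_add]
    congr 2
    push_cast
    ring
  have f3 : (((c ^ 2 : ℕ) : ℝ) ^ 2) ^ (c ^ 2 * m) * Real.exp 1 =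
      Real.exp (4 * l * ((c : ℝ) ^ 2 * m) + 1) := by
    rw [hn2, ← Real.exp_nat_mul, Real.exp_add]
    congr 2
    push_cast
    ring
  have f4 : (((c ^ 2 : ℕ) : ℝ) ^ 2) ^ (c ^ 2 * q) * Real.exp 1 =
      Real.exp (4 * l * ((c : ℝ) ^ 2 * q) + 1) := by
    rw [hn2, ← Real.exp_nat_mul, Real.exp_add]
    congr 2
    push_cast
    ring
  have f5 : ((m : ℝ) + 1) ^ (c ^ 3) * Real.exp ((c : ℝ) ^ 3) =
      Real.exp ((c : ℝ) ^ 3 * Real.log (m + 1) + (c : ℝ) ^ 3) := by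
    rw [Real.exp_add]
    congr 1
    rw [show (c : ℝ) ^ 3 * Real.log (m + 1) = ((c ^ 3 : ℕ) : ℝ) * Real.log (m + 1) by push_cast; ring,
      Real.exp_nat_mul, Real.exp_log hm1]
  have f6 : (h : ℝ) ^ (c ^ 3) * Real.exp ((c : ℝ) ^ 3) =
      Real.exp ((c : ℝ) ^ 3 * Real.log h + (c : ℝ) ^ 3) := by
    rw [Real.exp_add]
    congr 1
    rw [show (c : ℝ) ^ 3 * Real.log h = ((c ^ 3 : ℕ) : ℝ) * Real.log h by push_cast; ring,
      Real.exp_nat_mul, Real.exp_log hhR]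
  have f7 : (c : ℝ) ^ ((b + 3) * c ^ 3 / (3 * b)) * Real.exp ((c : ℝ) ^ 3) ≤
      Real.exp (l * (((b + 3) * (c : ℝ) ^ 3) / (3 * b)) + (c : ℝ) ^ 3) := by
    rw [Real.exp_add]
    refine mul_le_mul_of_nonneg_right ?_ (Real.exp_pos _).le
    have h1 : (c : ℝ) ^ ((b + 3) * c ^ 3 / (3 * b)) =
        Real.exp ((((b + 3) * c ^ 3 / (3 * b) : ℕ) : ℝ) * l) := by
      rw [Real.exp_nat_mul, ← hcl]
    rw [h1, mul_comm]
    refine Real.exp_le_exp.2 (mul_le_mul_of_nonneg_left ?_ hl0)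
    have h2 := Nat.cast_div_le (α := ℝ) (m := (b + 3) * c ^ 3) (n := 3 * b)
    push_cast at h2
    exact h2
  rw [f1, f2, f3, f4, f5, f6] at main
  have hle : (Ω.card : ℝ) ≤ Real.exp (5 + 2 * l * t + 8 * l * (t * c) +
      4 * l * ((c : ℝ) ^ 2 * m) + 4 * l * ((c : ℝ) ^ 2 * q) +
      (c : ℝ) ^ 3 * (Real.log (m + 1) + Real.log h + 3) +
      l * (((b + 3) * (c : ℝ) ^ 3) / (3 * b))) := by
    refine main.trans ?_
    calc _ ≤ Real.exp (2 * l * t + 1) * (Real.exp (4 * l * (t * c) + 1) *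
          (Real.exp (4 * l * (t * c) + 1) * (Real.exp (4 * l * ((c : ℝ) ^ 2 * m) + 1) *
          Real.exp (4 * l * ((c : ℝ) ^ 2 * q) + 1)))) *
          (Real.exp ((c : ℝ) ^ 3 * Real.log (m + 1) + (c : ℝ) ^ 3) *
          (Real.exp ((c : ℝ) ^ 3 * Real.log h + (c : ℝ) ^ 3) *
          (Real.exp (l * (((b + 3) * (c : ℝ) ^ 3) / (3 * b)) + (c : ℝ) ^ 3) * 1))) := by
            gcongr
      _ = _ := by
            rw [mul_one]
            simp only [← Real.exp_add]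
            congr 1
            ring
  rw [Real.log_le_iff_le_exp (by exact_mod_cast hpos)]
  exact hle

theorem bound_of_large (c s : ℕ) (hs2 : 2 ≤ s) (hls : Real.log c ≤ (s : ℝ) - 1)
    (hsc : 48 * s ^ 6 ≤ c)
    (Ω : Finset (Fin (c ^ 2) → Finset (Fin (c ^ 2)))) (hΩ : ∀ o ∈ Ω, IsSol c o)
    (hpos : 0 < Ω.card) :
    Real.log Ω.card ≤ (c : ℝ) ^ 3 * (Real.log c / 3) + (c : ℝ) ^ 3 * (8 * Real.log s + 46) := by
  have hs0 : 0 < s := by omega
  have hc : 0 < c := by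
    have : 0 < s ^ 6 := by positivity
    omega
  have hcR : (0 : ℝ) < c := by exact_mod_cast hc
  have hc1 : (1 : ℝ) ≤ c := by exact_mod_cast hc
  have hS2 : (2 : ℝ) ≤ s := by exact_mod_cast hs2
  have hS0 : (0 : ℝ) < s := by linarith
  have hscR : 48 * (s : ℝ) ^ 6 ≤ c := by exact_mod_cast hsc
  set l : ℝ := Real.log c with hl
  have hl0 : 0 ≤ l := Real.log_nonneg hc1
  have hlc : l ≤ c := (Real.log_le_self hcR.le)
  set A : ℕ := c / (4 * s ^ 3) with hA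
  have hD0 : 0 < 4 * s ^ 3 := by positivity
  have h43 : 4 * s ^ 3 ≤ c := by
    have h1 : s ^ 3 ≤ s ^ 6 := Nat.pow_le_pow_right hs0 (by norm_num)
    omega
  have hA1 : 1 ≤ A := Nat.div_pos h43 hD0
  have hA2 : 4 * s ^ 3 * A ≤ c := Nat.mul_div_le c (4 * s ^ 3)
  have hA3 : c < 4 * s ^ 3 * (A + 1) := Nat.lt_mul_div_succ c hD0
  have ham : c ≤ A * (8 * s ^ 3) := by nlinarith
  have hb : s * (2 * s ^ 2 * A + 24 * s ^ 5) ≤ c := by
    have h1 : 2 * (s * (2 * s ^ 2 * A + 24 * s ^ 5)) = 4 * s ^ 3 * A + 48 * s ^ 6 := by ring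
    omega
  have hh : 0 < 24 * s ^ 5 := by positivity
  set t : ℕ := c ^ 2 / s + 1 with ht
  set q : ℕ := c / s + 1 with hq
  have ht1 : (c : ℝ) ^ 2 < s * t := by
    have h1 := Nat.lt_mul_div_succ (c ^ 2) hs0
    exact_mod_cast h1
  have hq1 : (c : ℝ) < s * q := by
    have h1 := Nat.lt_mul_div_succ c hs0
    exact_mod_cast h1
  have ht2 : (t : ℝ) ≤ (c : ℝ) ^ 2 / s + 1 := by
    have h1 := Nat.cast_div_le (α := ℝ) (m := c ^ 2) (n := s)
    rw [ht]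
    push_cast at h1 ⊢
    linarith
  have hq2 : (q : ℝ) ≤ (c : ℝ) / s + 1 := by
    have h1 := Nat.cast_div_le (α := ℝ) (m := c) (n := s)
    rw [hq]
    push_cast
    linarith
  have hlog2 : Real.log 2 ≤ 1 := by
    have := Real.log_two_lt_d9
    linarith
  have hcond1 : Real.log 2 + 1 + 2 * l * (((8 * s ^ 3 : ℕ) : ℝ) + ((2 * s ^ 2 : ℕ) : ℝ) + 1) <
      t * (((24 * s ^ 5 : ℕ) : ℝ) / (c : ℝ) ^ 2) := by
    have h1 : 24 * (s : ℝ) ^ 4 < t * (((24 * s ^ 5 : ℕ) : ℝ) / (c : ℝ) ^ 2) := by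
      rw [mul_div_assoc', lt_div_iff₀ (by positivity)]
      push_cast
      have : 24 * (s : ℝ) ^ 4 * (c : ℝ) ^ 2 < 24 * (s : ℝ) ^ 4 * (s * t) :=
        mul_lt_mul_of_pos_left ht1 (by positivity)
      calc 24 * (s : ℝ) ^ 4 * (c : ℝ) ^ 2 < 24 * (s : ℝ) ^ 4 * (s * t) := this
        _ = t * (24 * (s : ℝ) ^ 5) := by ring
    refine lt_of_le_of_lt ?_ h1
    push_cast
    have h2 : 2 * l * (8 * (s : ℝ) ^ 3 + 2 * (s : ℝ) ^ 2 + 1) ≤
        2 * ((s : ℝ) - 1) * (8 * (s : ℝ) ^ 3 + 2 * (s : ℝ) ^ 2 + 1) :=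
      mul_le_mul_of_nonneg_right (by linarith) (by positivity)
    have h3 : 2 * ((s : ℝ) - 1) * (8 * (s : ℝ) ^ 3 + 2 * (s : ℝ) ^ 2 + 1) + 2 ≤
        24 * (s : ℝ) ^ 4 := by
      have h4 : 2 * ((s : ℝ) - 1) * (8 * (s : ℝ) ^ 3 + 2 * (s : ℝ) ^ 2 + 1) + 2 =
        16 * (s : ℝ) ^ 4 - 12 * (s : ℝ) ^ 3 - 4 * (s : ℝ) ^ 2 + 2 * s := by ring
      rw [h4]
      nlinarith [pow_pos hS0 3, pow_pos hS0 4, mul_pos hS0 hS0]
    linarith
  have hcond2 : 2 * l < q * (((2 * s ^ 2 : ℕ) : ℝ) / c) := by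
    rw [mul_div_assoc', lt_div_iff₀ hcR]
    push_cast
    have h1 : 2 * l * c ≤ 2 * (s : ℝ) * c :=
      mul_le_mul_of_nonneg_right (by linarith) hcR.le
    have h2 : 2 * (s : ℝ) * c < 2 * (s : ℝ) * (s * q) := mul_lt_mul_of_pos_left hq1 (by positivity)
    calc 2 * l * c ≤ 2 * (s : ℝ) * c := h1
      _ < 2 * (s : ℝ) * (s * q) := h2
      _ = q * (2 * (s : ℝ) ^ 2) := by ring
  have main := log_card_le c A s (8 * s ^ 3) (2 * s ^ 2) (24 * s ^ 5) q t hc hA1 ham hs0 hh hb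
    hcond1 hcond2 Ω hΩ hpos
  rw [← hl] at main
  -- estimates
  have hlS : l ≤ s := by linarith
  have hc3 : (1 : ℝ) ≤ (c : ℝ) ^ 3 := one_le_pow₀ hc1
  have hc23 : (c : ℝ) ^ 2 ≤ (c : ℝ) ^ 3 := pow_le_pow_right₀ hc1 (by norm_num)
  have hc13 : (c : ℝ) ≤ (c : ℝ) ^ 3 := le_self_pow₀ hc1 (by norm_num)
  have hlt : l * t ≤ (c : ℝ) ^ 2 + l := by
    calc l * t ≤ l * ((c : ℝ) ^ 2 / s + 1) := mul_le_mul_of_nonneg_left ht2 hl0
      _ = l / s * (c : ℝ) ^ 2 + l := by field_simp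
      _ ≤ 1 * (c : ℝ) ^ 2 + l := by
        gcongr
        rw [div_le_one hS0]
        exact hlS
      _ = (c : ℝ) ^ 2 + l := by ring
  have hlq : l * q ≤ (c : ℝ) + l := by
    calc l * q ≤ l * ((c : ℝ) / s + 1) := mul_le_mul_of_nonneg_left hq2 hl0
      _ = l / s * (c : ℝ) + l := by field_simp
      _ ≤ 1 * (c : ℝ) + l := by
        gcongr
        rw [div_le_one hS0]
        exact hlS
      _ = (c : ℝ) + l := by ring
  have g1 : 2 * l * t ≤ 4 * (c : ℝ) ^ 3 := by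
    have h1 : l ≤ (c : ℝ) ^ 3 := hlc.trans hc13
    have h2 : 2 * l * t = 2 * (l * t) := by ring
    rw [h2]
    linarith
  have g2 : 8 * l * (t * c) ≤ 16 * (c : ℝ) ^ 3 := by
    have h1 : l * t * c ≤ ((c : ℝ) ^ 2 + l) * c := mul_le_mul_of_nonneg_right hlt hcR.le
    have h2 : l * c ≤ (c : ℝ) ^ 3 := by
      calc l * c ≤ c * c := mul_le_mul_of_nonneg_right hlc hcR.le
        _ = (c : ℝ) ^ 2 := by ring
        _ ≤ (c : ℝ) ^ 3 := hc23
    have h3 : 8 * l * (t * c) = 8 * (l * t * c) := by ring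
    have h4 : ((c : ℝ) ^ 2 + l) * c = (c : ℝ) ^ 3 + l * c := by ring
    rw [h3]
    rw [h4] at h1
    linarith
  have g3 : 4 * l * ((c : ℝ) ^ 2 * ((8 * s ^ 3 : ℕ) : ℝ)) ≤ (c : ℝ) ^ 3 := by
    push_cast
    have h1 : l * (s : ℝ) ^ 3 ≤ (s : ℝ) ^ 4 := by
      calc l * (s : ℝ) ^ 3 ≤ s * (s : ℝ) ^ 3 := mul_le_mul_of_nonneg_right hlS (by positivity)
        _ = (s : ℝ) ^ 4 := by ring
    have h2 : (s : ℝ) ^ 4 ≤ (s : ℝ) ^ 6 := pow_le_pow_right₀ (by linarith) (by norm_num)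
    have h3 : 32 * (l * (s : ℝ) ^ 3) ≤ c := by
      have h4 := pow_pos hS0 6
      linarith
    calc 4 * l * ((c : ℝ) ^ 2 * (8 * (s : ℝ) ^ 3)) = (c : ℝ) ^ 2 * (32 * (l * (s : ℝ) ^ 3)) := by
          ring
      _ ≤ (c : ℝ) ^ 2 * c := mul_le_mul_of_nonneg_left h3 (by positivity)
      _ = (c : ℝ) ^ 3 := by ring
  have g4 : 4 * l * ((c : ℝ) ^ 2 * q) ≤ 8 * (c : ℝ) ^ 3 := by
    have h1 : l * q * (c : ℝ) ^ 2 ≤ ((c : ℝ) + l) * (c : ℝ) ^ 2 :=
      mul_le_mul_of_nonneg_right hlq (by positivity)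
    have h2 : l * (c : ℝ) ^ 2 ≤ (c : ℝ) ^ 3 := by
      calc l * (c : ℝ) ^ 2 ≤ c * (c : ℝ) ^ 2 := mul_le_mul_of_nonneg_right hlc (by positivity)
        _ = (c : ℝ) ^ 3 := by ring
    have h3 : 4 * l * ((c : ℝ) ^ 2 * q) = 4 * (l * q * (c : ℝ) ^ 2) := by ring
    have h4 : ((c : ℝ) + l) * (c : ℝ) ^ 2 = (c : ℝ) ^ 3 + l * (c : ℝ) ^ 2 := by ring
    rw [h3]
    rw [h4] at h1
    linarith
  have g5 : Real.log (((8 * s ^ 3 : ℕ) : ℝ) + 1) ≤ 3 * Real.log s + 3 := by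
    push_cast
    have h1 : 8 * (s : ℝ) ^ 3 + 1 ≤ 9 * (s : ℝ) ^ 3 := by
      have : (1 : ℝ) ≤ (s : ℝ) ^ 3 := one_le_pow₀ (by linarith)
      linarith
    have h2 : Real.log (8 * (s : ℝ) ^ 3 + 1) ≤ Real.log (9 * (s : ℝ) ^ 3) :=
      Real.log_le_log (by positivity) h1
    rw [Real.log_mul (by norm_num) (by positivity), Real.log_pow] at h2
    have h3 : Real.log 9 ≤ 3 := by
      rw [Real.log_le_iff_le_exp (by norm_num)]
      have := Real.exp_one_gt_d9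
      have h4 : Real.exp 3 = Real.exp 1 ^ 3 := by rw [← Real.exp_nat_mul]; norm_num
      rw [h4]
      calc (9 : ℝ) ≤ 2.7 ^ 3 := by norm_num
        _ ≤ Real.exp 1 ^ 3 := pow_le_pow_left₀ (by norm_num) (by linarith) 3
    push_cast at h2
    linarith
  have g6 : Real.log ((24 * s ^ 5 : ℕ) : ℝ) ≤ 5 * Real.log s + 4 := by
    push_cast
    rw [Real.log_mul (by norm_num) (by positivity), Real.log_pow]
    have h3 : Real.log 24 ≤ 4 := by
      rw [Real.log_le_iff_le_exp (by norm_num)]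
      have := Real.exp_one_gt_d9
      have h4 : Real.exp 4 = Real.exp 1 ^ 4 := by rw [← Real.exp_nat_mul]; norm_num
      rw [h4]
      calc (24 : ℝ) ≤ 2.7 ^ 4 := by norm_num
        _ ≤ Real.exp 1 ^ 4 := pow_le_pow_left₀ (by norm_num) (by linarith) 4
    push_cast
    linarith
  have g7 : l * (((s + 3) * (c : ℝ) ^ 3) / (3 * s)) ≤ (c : ℝ) ^ 3 * (l / 3) + (c : ℝ) ^ 3 := by
    have h1 : l * (((s + 3) * (c : ℝ) ^ 3) / (3 * s)) =
        (c : ℝ) ^ 3 * (l / 3) + l / s * (c : ℝ) ^ 3 := by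
      field_simp
    rw [h1]
    have h2 : l / s ≤ 1 := by
      rw [div_le_one hS0]
      exact hlS
    have h3 : l / s * (c : ℝ) ^ 3 ≤ 1 * (c : ℝ) ^ 3 :=
      mul_le_mul_of_nonneg_right h2 (by positivity)
    linarith
  have g8 : (c : ℝ) ^ 3 * (Real.log (((8 * s ^ 3 : ℕ) : ℝ) + 1) + Real.log ((24 * s ^ 5 : ℕ) : ℝ) + 3) ≤
      (c : ℝ) ^ 3 * (8 * Real.log s + 10) :=
    mul_le_mul_of_nonneg_left (by linarith) (by positivity)
  have g9 : (c : ℝ) ^ 3 * (8 * Real.log s + 46) = (c : ℝ) ^ 3 * (8 * Real.log s + 10) +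
      36 * (c : ℝ) ^ 3 := by ring
  have g10 : 5 ≤ 5 * (c : ℝ) ^ 3 := by linarith
  linarith

theorem eventually_bound : ∃ c0 : ℕ, ∀ c : ℕ, c0 ≤ c →
    ∀ Ω : Finset (Fin (c ^ 2) → Finset (Fin (c ^ 2))), (∀ o ∈ Ω, IsSol c o) → 0 < Ω.card →
      Real.log Ω.card ≤ (c : ℝ) ^ 3 / 3 * (Real.log c + 25 * Real.log (Real.log c)) := by
  have hlog : Filter.Tendsto (fun c : ℕ => Real.log c) Filter.atTop Filter.atTop :=
    Real.tendsto_log_atTop.comp tendsto_natCast_atTop_atTop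
  have hloglog : Filter.Tendsto (fun c : ℕ => Real.log (Real.log c)) Filter.atTop Filter.atTop :=
    Real.tendsto_log_atTop.comp hlog
  -- `48 (log c + 2) ^ 6 ≤ c`
  have h1 : ∀ᶠ x : ℝ in Filter.atTop, 48 * (x + 2) ^ 6 ≤ Real.exp x := by
    have h2 : Filter.Tendsto (fun x : ℝ => (x + 2) ^ 6 / Real.exp (x + 2)) Filter.atTop
        (nhds 0) :=
      ((Real.tendsto_pow_mul_exp_neg_atTop_nhds_zero 6).comp
        (Filter.tendsto_atTop_add_const_right Filter.atTop (2 : ℝ) Filter.tendsto_id)).congr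
        (fun x => by simp only [Function.comp_apply, id]; rw [Real.exp_neg, div_eq_mul_inv])
    have h3 : (0 : ℝ) < Real.exp (-2) / 48 := by positivity
    filter_upwards [h2.eventually_lt_const h3] with x hx
    rw [div_lt_iff₀ (Real.exp_pos _), Real.exp_add] at hx
    have h4 : Real.exp (-2) * Real.exp 2 = 1 := by rw [← Real.exp_add]; norm_num
    have h5 : Real.exp (-2) / 48 * (Real.exp x * Real.exp 2) = Real.exp x / 48 := by
      calc Real.exp (-2) / 48 * (Real.exp x * Real.exp 2) =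
          (Real.exp (-2) * Real.exp 2) * Real.exp x / 48 := by ring
        _ = Real.exp x / 48 := by rw [h4, one_mul]
    rw [h5] at hx
    linarith
  have hev := (hlog.eventually h1).and ((hlog.eventually_ge_atTop 1).and
    ((hloglog.eventually_ge_atTop 200).and (Filter.eventually_ge_atTop 1)))
  obtain ⟨c0, hc0⟩ := Filter.eventually_atTop.1 hev
  refine ⟨c0, fun c hc Ω hΩ hpos => ?_⟩
  obtain ⟨h2, h3, h4, h5⟩ := hc0 c hc
  have hcR : (0 : ℝ) < c := by exact_mod_cast h5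
  set l : ℝ := Real.log c with hl
  rw [hl, Real.exp_log hcR, ← hl] at h2
  set s : ℕ := ⌈l⌉₊ + 1 with hs
  have hs1 : l ≤ (s : ℝ) - 1 := by
    rw [hs]
    push_cast
    linarith [Nat.le_ceil l]
  have hs2 : (s : ℝ) ≤ l + 2 := by
    rw [hs]
    push_cast
    linarith [(Nat.ceil_lt_add_one (by linarith : (0 : ℝ) ≤ l)).le]
  have hs3 : 2 ≤ s := by
    have : (2 : ℝ) ≤ s := by linarith
    exact_mod_cast this
  have hs4 : 48 * s ^ 6 ≤ c := by
    have h6 : 48 * (s : ℝ) ^ 6 ≤ c := by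
      refine le_trans ?_ h2
      gcongr
    exact_mod_cast h6
  have main := bound_of_large c s hs3 hs1 hs4 Ω hΩ hpos
  have hlogs : Real.log s ≤ Real.log l + 2 := by
    have h6 : (s : ℝ) ≤ 3 * l := by linarith
    have hs0 : (0 : ℝ) < s := by
      have : (2 : ℝ) ≤ s := by exact_mod_cast hs3
      linarith
    have h7 : Real.log s ≤ Real.log (3 * l) := Real.log_le_log hs0 h6
    rw [Real.log_mul (by norm_num) (by linarith)] at h7
    have h8 : Real.log 3 ≤ 2 := by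
      have := Real.log_le_sub_one_of_pos (show (0 : ℝ) < 3 by norm_num)
      linarith
    linarith
  have hc3 : (0 : ℝ) ≤ (c : ℝ) ^ 3 := by positivity
  rw [← hl] at main
  refine main.trans ?_
  have h9 : (c : ℝ) ^ 3 / 3 * (l + 25 * Real.log l) =
      (c : ℝ) ^ 3 * (l / 3) + (c : ℝ) ^ 3 * (25 / 3 * Real.log l) := by ring
  rw [h9]
  have h10 : 8 * Real.log s + 46 ≤ 25 / 3 * Real.log l := by linarith
  have h11 := mul_le_mul_of_nonneg_left h10 hc3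
  linarith

end Pool.Agent.H59.SqJ
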